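import Mathlib

/-!
# Elimination with a bound for the degree

If `s < k` and each of the numbers `x_1, …, x_k` is a root of a nonzero polynomial whose coefficients are polynomials in
`u_1, …, u_s`, all degrees being at most `d`, then a nonzero polynomial in `k` variables, of a degree bounded in terms of
`k`, `s` and `d`, vanishes at `(x_1, …, x_k)`; it depends only on the given polynomials, not on `u` and `x`.
-/

set_option autoImplicit false

namespace Pool.Agent.U723.TD

open Finset

section fn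

variable {S : Type*} {s k : ℕ} (u : Fin s → S → ℝ)

/-- the functions spanned by the monomials in the `u l` with exponents at most `M` -/
def B (M : ℕ) : Submodule ℝ (S → ℝ) :=
  Submodule.span ℝ (Set.range fun γ : Fin s → Fin (M + 1) => fun z => ∏ l, u l z ^ (γ l : ℕ))

lemma mono_mem {M : ℕ} (γ : Fin s → ℕ) (h : ∀ l, γ l ≤ M) : (fun z => ∏ l, u l z ^ γ l) ∈ B u M :=
  Submodule.subset_span ⟨fun l => ⟨γ l, by have := h l; omega⟩, rfl⟩

lemma B_mono {M M' : ℕ} (h : M ≤ M') : B u M ≤ B u M' := by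
  refine Submodule.span_le.2 ?_
  rintro _ ⟨γ, rfl⟩
  exact mono_mem u (fun l => (γ l : ℕ)) fun l => by have := (γ l).2; omega

lemma one_mem (M : ℕ) : (1 : S → ℝ) ∈ B u M := by
  have := mono_mem u (M := M) (fun _ => 0) fun l => Nat.zero_le _
  simpa [Pi.one_def] using this

lemma mul_mem {M M' : ℕ} {f g : S → ℝ} (hf : f ∈ B u M) (hg : g ∈ B u M') : f * g ∈ B u (M + M') := by
  have h := Submodule.mul_mem_mul hf hg
  rw [B, B, Submodule.span_mul_span] at h
  refine Submodule.span_le.2 ?_ h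
  rintro _ ⟨_, ⟨γ, rfl⟩, _, ⟨γ', rfl⟩, rfl⟩
  have e : ((fun z => ∏ l, u l z ^ (γ l : ℕ)) * fun z => ∏ l, u l z ^ (γ' l : ℕ)) =
      fun z => ∏ l, u l z ^ ((γ l : ℕ) + (γ' l : ℕ)) := by
    funext z
    simp only [Pi.mul_apply, ← prod_mul_distrib, pow_add]
  simp only [SetLike.mem_coe]
  show ((fun z => ∏ l, u l z ^ (γ l : ℕ)) * fun z => ∏ l, u l z ^ (γ' l : ℕ)) ∈ _
  rw [e]
  exact mono_mem u _ fun l => by have := (γ l).2; have := (γ' l).2; omega

lemma pow_mem {M : ℕ} {f : S → ℝ} (hf : f ∈ B u M) (m : ℕ) : f ^ m ∈ B u (m * M) := by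
  induction m with
  | zero => simpa using one_mem u (0 * M)
  | succ m ih =>
    rw [pow_succ, Nat.succ_mul]
    exact mul_mem u ih hf

lemma prod_mem {ι : Type*} (T : Finset ι) {M : ℕ} {f : ι → S → ℝ} (hf : ∀ i ∈ T, f i ∈ B u M) :
    ∏ i ∈ T, f i ∈ B u (T.card * M) := by
  classical
  induction T using Finset.induction_on with
  | empty => simpa using one_mem u (0 * M)
  | insert a T ha ih =>
    rw [prod_insert ha, card_insert_of_notMem ha, Nat.succ_mul, add_comm (T.card * M)]
    exact mul_mem u (hf a (mem_insert_self _ _)) (ih fun i hi => hf i (mem_insert_of_mem hi))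

/-- reduction of the powers of one variable -/
lemma red {d e : ℕ} (he : 1 ≤ e) {p x : S → ℝ} {q : ℕ → S → ℝ} (hp : p ∈ B u d) (hq : ∀ j, q j ∈ B u d)
    (h : ∀ z, p z * x z ^ e = ∑ j ∈ range e, q j z * x z ^ j) (m : ℕ) :
    ∃ f : ℕ → S → ℝ, (∀ j, f j ∈ B u (m * d)) ∧ ∀ z, p z ^ m * x z ^ m = ∑ j ∈ range e, f j z * x z ^ j := by
  obtain ⟨e, rfl⟩ : ∃ e', e = e' + 1 := ⟨e - 1, by omega⟩
  induction m with
  | zero =>
    refine ⟨fun j => if j = 0 then 1 else 0, fun j => ?_, fun z => ?_⟩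
    · show (if j = 0 then (1 : S → ℝ) else 0) ∈ _
      split
      · exact one_mem u _
      · exact Submodule.zero_mem _
    · rw [sum_range_succ']
      simp
  | succ m ih =>
    obtain ⟨f, hf, hz⟩ := ih
    refine ⟨fun j => f e * q j + (if j = 0 then 0 else p * f (j - 1)), fun j => ?_, fun z => ?_⟩
    · rw [Nat.succ_mul]
      refine Submodule.add_mem _ (mul_mem u (hf e) (hq j)) ?_
      split
      · exact Submodule.zero_mem _
      · rw [mul_comm p]
        exact mul_mem u (hf _) hp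
    · have h1 : p z ^ (m + 1) * x z ^ (m + 1) = p z * x z * (p z ^ m * x z ^ m) := by ring
      rw [h1, hz z, sum_range_succ, mul_add]
      have h2 : p z * x z * (f e z * x z ^ e) = f e z * (p z * x z ^ (e + 1)) := by ring
      rw [h2, h z, mul_sum]
      simp only [Pi.add_apply, Pi.mul_apply, add_mul, sum_add_distrib]
      rw [add_comm]
      congr 1
      · rw [mul_sum]
        exact sum_congr rfl fun j _ => by ring
      · rw [sum_range_succ']
        simp only [Nat.add_eq_zero_iff, one_ne_zero, and_false, if_false, Nat.add_sub_cancel, if_true, Pi.zero_apply,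
          zero_mul, add_zero, Pi.mul_apply]
        exact sum_congr rfl fun j _ => by ring

/-- reduction with a fixed power of the leading coefficient -/
lemma red' {d e D : ℕ} (he : 1 ≤ e) {p x : S → ℝ} {q : ℕ → S → ℝ} (hp : p ∈ B u d) (hq : ∀ j, q j ∈ B u d)
    (h : ∀ z, p z * x z ^ e = ∑ j ∈ range e, q j z * x z ^ j) (m : ℕ) (hm : m ≤ D) :
    ∃ f : ℕ → S → ℝ, (∀ j, f j ∈ B u (D * d)) ∧ ∀ z, p z ^ D * x z ^ m = ∑ j ∈ range e, f j z * x z ^ j := by
  obtain ⟨f, hf, hz⟩ := red u he hp hq h m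
  refine ⟨fun j => p ^ (D - m) * f j, fun j => ?_, fun z => ?_⟩
  · have := mul_mem u (pow_mem u hp (D - m)) (hf j)
    rwa [← add_mul, Nat.sub_add_cancel hm] at this
  · have h1 : p z ^ D * x z ^ m = p z ^ (D - m) * (p z ^ m * x z ^ m) := by
      rw [← mul_assoc, ← pow_add, Nat.sub_add_cancel hm]
    rw [h1, hz z, mul_sum]
    exact sum_congr rfl fun j _ => by simp [mul_assoc]

/-- the functions spanned by the products of monomials in `u` with exponents at most `M` and monomials in `x` with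
exponents less than `d` -/
def W (x : Fin k → S → ℝ) (M d : ℕ) : Submodule ℝ (S → ℝ) :=
  Submodule.span ℝ (Set.range fun c : (Fin s → Fin (M + 1)) × (Fin k → Fin d) =>
    fun z => (∏ l, u l z ^ (c.1 l : ℕ)) * ∏ i, x i z ^ (c.2 i : ℕ))

lemma W_mem {x : Fin k → S → ℝ} {M d : ℕ} {f : S → ℝ} (hf : f ∈ B u M) (β : Fin k → ℕ) (hβ : ∀ i, β i < d) :
    (fun z => f z * ∏ i, x i z ^ β i) ∈ W u x M d := by
  induction hf using Submodule.span_induction with
  | mem f hf =>
    obtain ⟨γ, rfl⟩ := hf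
    exact Submodule.subset_span ⟨(γ, fun i => ⟨β i, hβ i⟩), rfl⟩
  | zero =>
    convert (W u x M d).zero_mem using 1
    funext z
    simp
  | add f g _ _ hf hg =>
    have := (W u x M d).add_mem hf hg
    convert this using 1
    funext z
    simp [add_mul]
  | smul a f _ hf =>
    have := (W u x M d).smul_mem a hf
    convert this using 1
    funext z
    simp [mul_assoc]

lemma finrank_W (x : Fin k → S → ℝ) (M d : ℕ) : Module.finrank ℝ (W u x M d) ≤ (M + 1) ^ s * d ^ k := by
  refine (finrank_range_le_card _).trans ?_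
  simp

lemma prod_W {x p : Fin k → S → ℝ} {d D : ℕ} (e : Fin k → ℕ) (he : ∀ i, 1 ≤ e i ∧ e i ≤ d) {q : Fin k → ℕ → S → ℝ}
    (hp : ∀ i, p i ∈ B u d) (hq : ∀ i j, q i j ∈ B u d)
    (h : ∀ i z, p i z * x i z ^ e i = ∑ j ∈ range (e i), q i j z * x i z ^ j) (α : Fin k → ℕ) (hα : ∀ i, α i ≤ D) :
    (fun z => (∏ i, p i z) ^ D * ∏ i, x i z ^ α i) ∈ W u x (k * (D * d)) d := by
  classical
  choose f hf hz using fun i => red' u (he i).1 (hp i) (hq i) (h i) (α i) (hα i)
  have e1 : (fun z => (∏ i, p i z) ^ D * ∏ i, x i z ^ α i) =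
      ∑ β ∈ Fintype.piFinset fun i => range (e i), fun z => (∏ i, f i (β i)) z * ∏ i, x i z ^ β i := by
    funext z
    rw [← prod_pow, ← prod_mul_distrib, Finset.sum_apply]
    simp only [hz, prod_univ_sum, Finset.prod_apply, prod_mul_distrib]
  rw [e1]
  refine Submodule.sum_mem _ fun β hβ => W_mem u ?_ β fun i => ?_
  · have := prod_mem u (univ : Finset (Fin k)) (M := D * d) (f := fun i => f i (β i)) fun i _ => hf i _
    simpa using this
  · have := mem_range.1 (Fintype.mem_piFinset.1 hβ i)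
    exact this.trans_le (he i).2

end fn

/-- the number of the monomials -/
lemma dim_lt {s k d D : ℕ} (hs : s < k) (hD : (k * d + 1) ^ s * d ^ k ≤ D) :
    (k * (D * d) + 1) ^ s * d ^ k < (D + 1) ^ k := by
  have h1 : k * (D * d) + 1 ≤ (k * d + 1) * (D + 1) := by nlinarith [Nat.zero_le (k * d), Nat.zero_le D]
  calc (k * (D * d) + 1) ^ s * d ^ k ≤ ((k * d + 1) * (D + 1)) ^ s * d ^ k := by gcongr
    _ = (k * d + 1) ^ s * d ^ k * (D + 1) ^ s := by rw [mul_pow]; ring
    _ ≤ D * (D + 1) ^ s := by gcongr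
    _ < (D + 1) * (D + 1) ^ s := by gcongr; omega
    _ = (D + 1) ^ (s + 1) := by rw [pow_succ]; ring
    _ ≤ (D + 1) ^ k := Nat.pow_le_pow_right (by omega) (by omega)

/-- the nonzero polynomial, for a system with nonvanishing leading coefficients -/
lemma elim_fn {S : Type*} {s k d : ℕ} (hs : s < k) (hd : 1 ≤ d) (u : Fin s → S → ℝ) (x p : Fin k → S → ℝ)
    (e : Fin k → ℕ) (he : ∀ i, 1 ≤ e i ∧ e i ≤ d) (q : Fin k → ℕ → S → ℝ)
    (hp : ∀ i, p i ∈ B u d) (hq : ∀ i j, q i j ∈ B u d)
    (h : ∀ i z, p i z * x i z ^ e i = ∑ j ∈ range (e i), q i j z * x i z ^ j) (hp0 : ∀ i z, p i z ≠ 0) :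
    ∃ R : MvPolynomial (Fin k) ℝ, R ≠ 0 ∧ R.totalDegree ≤ k * ((k * d + 1) ^ s * d ^ k) ∧
      ∀ z, MvPolynomial.eval (fun i => x i z) R = 0 := by
  classical
  obtain ⟨D, hD⟩ : ∃ D, D = (k * d + 1) ^ s * d ^ k := ⟨_, rfl⟩
  have hdim := dim_lt hs hD.ge
  let g : (Fin k → Fin (D + 1)) → W u x (k * (D * d)) d := fun α =>
    ⟨_, prod_W u e he hp hq h (fun i => (α i : ℕ)) fun i => by have := (α i).2; omega⟩
  have : Module.Finite ℝ (W u x (k * (D * d)) d) := Module.Finite.span_of_finite ℝ (Set.finite_range _)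
  have hli : ¬ LinearIndependent ℝ g := by
    intro hl
    have := hl.fintype_card_le_finrank
    have h2 := finrank_W u x (k * (D * d)) d
    simp only [Fintype.card_pi, Fintype.card_fin, prod_const, card_univ] at this
    omega
  rw [Fintype.not_linearIndependent_iff] at hli
  obtain ⟨r, hr, α₀, hα₀⟩ := hli
  let m : (Fin k → Fin (D + 1)) → (Fin k →₀ ℕ) := fun α => Finsupp.equivFunOnFinite.symm fun i => (α i : ℕ)
  have hm : Function.Injective m := by
    intro α β hαβ
    have := Finsupp.equivFunOnFinite.symm.injective hαβ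
    funext i
    exact Fin.ext (congrFun this i)
  refine ⟨∑ α, MvPolynomial.monomial (m α) (r α), ?_, ?_, fun z => ?_⟩
  · intro h0
    have := congrArg (MvPolynomial.coeff (m α₀)) h0
    rw [MvPolynomial.coeff_sum, sum_eq_single α₀] at this
    · simp [MvPolynomial.coeff_monomial] at this
      exact hα₀ this
    · intro β _ hβ
      rw [MvPolynomial.coeff_monomial, if_neg fun hh => hβ (hm hh)]
    · simp
  · refine (MvPolynomial.totalDegree_finsetSum _ _).trans (Finset.sup_le fun α _ => ?_)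
    refine (MvPolynomial.totalDegree_monomial_le _ _).trans ?_
    rw [Finsupp.sum_fintype _ _ (by simp)]
    calc ∑ i, (m α) i ≤ ∑ _i : Fin k, D := sum_le_sum fun i _ => by
          have := (α i).2
          show (α i : ℕ) ≤ D
          omega
      _ = k * D := by simp
      _ = _ := by rw [hD]
  · have h1 := congrFun (congrArg Subtype.val hr) z
    simp only [Submodule.coe_sum, Submodule.coe_smul, Finset.sum_apply, Pi.smul_apply, smul_eq_mul,
      ZeroMemClass.coe_zero, Pi.zero_apply] at h1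
    have h2 : (∏ i, p i z) ^ D * MvPolynomial.eval (fun i => x i z) (∑ α, MvPolynomial.monomial (m α) (r α)) = 0 := by
      rw [← h1, map_sum, mul_sum]
      refine sum_congr rfl fun α _ => ?_
      rw [MvPolynomial.eval_monomial, Finsupp.prod_fintype _ _ (by simp)]
      show _ = r α * ((∏ i, p i z) ^ D * ∏ i, x i z ^ (α i : ℕ))
      have : ∏ i, x i z ^ (m α) i = ∏ i, x i z ^ (α i : ℕ) := rfl
      rw [this]
      ring
    rcases mul_eq_zero.1 h2 with h3 | h3
    · exact absurd h3 (pow_ne_zero _ (prod_ne_zero_iff.2 fun i _ => hp0 i z))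
    · exact h3

/-- the values of a polynomial of degree at most `d` in each variable -/
lemma eval_mem {S : Type*} {s d : ℕ} (u : Fin s → S → ℝ) (f : MvPolynomial (Fin s) ℝ) (hf : f.totalDegree ≤ d) :
    (fun z => MvPolynomial.eval (fun l => u l z) f) ∈ B u d := by
  have e1 : (fun z => MvPolynomial.eval (fun l => u l z) f) =
      ∑ m ∈ f.support, f.coeff m • fun z => ∏ l, u l z ^ m l := by
    funext z
    rw [MvPolynomial.eval_eq', Finset.sum_apply]
    rfl
  rw [e1]
  refine Submodule.sum_mem _ fun m hm => Submodule.smul_mem _ _ (mono_mem u _ fun l => ?_)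
  refine le_trans ?_ ((MvPolynomial.le_totalDegree hm).trans hf)
  rw [Finsupp.sum_fintype _ _ (by simp)]
  exact single_le_sum (f := fun i => m i) (fun i _ => Nat.zero_le _) (mem_univ l)

/-- `x i` is a root of the polynomial obtained from `P i` by inserting `u`, which is not zero -/
def IsAlg {s k : ℕ} (P : Fin k → Polynomial (MvPolynomial (Fin s) ℝ)) (u : Fin s → ℝ) (x : Fin k → ℝ) : Prop :=
  ∀ i, (P i).map (MvPolynomial.eval u) ≠ 0 ∧ ((P i).map (MvPolynomial.eval u)).eval (x i) = 0

/-- **Elimination.** -/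
theorem elim (s k d : ℕ) (hs : s < k) : ∃ Δ : ℕ, ∀ P : Fin k → Polynomial (MvPolynomial (Fin s) ℝ),
    (∀ i, (P i).natDegree ≤ d ∧ ∀ j, ((P i).coeff j).totalDegree ≤ d) →
    ∃ R : MvPolynomial (Fin k) ℝ, R ≠ 0 ∧ R.totalDegree ≤ Δ ∧
      ∀ (u : Fin s → ℝ) (x : Fin k → ℝ), IsAlg P u x → MvPolynomial.eval x R = 0 := by
  classical
  obtain ⟨d', hd'⟩ : ∃ d', d' = d + 1 := ⟨_, rfl⟩
  refine ⟨(d + 1) ^ k * (k * ((k * d' + 1) ^ s * d' ^ k)), fun P hP => ?_⟩
  -- the part where the degrees are `e i`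
  let S : (Fin k → Fin (d + 1)) → Type := fun e => {z : (Fin s → ℝ) × (Fin k → ℝ) //
    IsAlg P z.1 z.2 ∧ ∀ i, ((P i).map (MvPolynomial.eval z.1)).natDegree = e i}
  have key : ∀ e : Fin k → Fin (d + 1), ∃ R : MvPolynomial (Fin k) ℝ, R ≠ 0 ∧
      R.totalDegree ≤ k * ((k * d' + 1) ^ s * d' ^ k) ∧ ∀ z : S e, MvPolynomial.eval z.1.2 R = 0 := by
    intro e
    by_cases hS : IsEmpty (S e)
    · exact ⟨1, one_ne_zero, by simp, fun z => (hS.false z).elim⟩
    · rw [not_isEmpty_iff] at hS
      obtain ⟨z₀⟩ := hS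
      have he : ∀ i, 1 ≤ (e i : ℕ) ∧ (e i : ℕ) ≤ d' := by
        intro i
        refine ⟨?_, by have := (e i).2; omega⟩
        by_contra h0
        have h1 : ((P i).map (MvPolynomial.eval z₀.1.1)).natDegree = 0 := by
          rw [z₀.2.2 i]
          omega
        obtain ⟨h2, h3⟩ := z₀.2.1 i
        rw [Polynomial.eq_C_of_natDegree_eq_zero h1, Polynomial.eval_C] at h3
        rw [Polynomial.eq_C_of_natDegree_eq_zero h1, h3] at h2
        simp at h2
      have hev : ∀ (i : Fin k) (j : ℕ), (fun z : S e => MvPolynomial.eval (fun l => z.1.1 l) ((P i).coeff j)) ∈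
          B (fun (l : Fin s) (z : S e) => z.1.1 l) d' := fun i j =>
        eval_mem (fun (l : Fin s) (z : S e) => z.1.1 l) _ (((hP i).2 j).trans (by omega))
      obtain ⟨R, h1, h2, h3⟩ := elim_fn (S := S e) hs (by omega : 1 ≤ d') (fun l z => z.1.1 l) (fun i z => z.1.2 i)
        (fun i z => MvPolynomial.eval (fun l => z.1.1 l) ((P i).coeff (e i))) (fun i => (e i : ℕ)) he
        (fun i j => -fun z => MvPolynomial.eval (fun l => z.1.1 l) ((P i).coeff j))
        (fun i => hev i _) (fun i j => Submodule.neg_mem _ (hev i j))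
        (by
          intro i z
          obtain ⟨h2, h3⟩ := z.2.1 i
          have h4 := z.2.2 i
          rw [Polynomial.eval_eq_sum_range, h4, sum_range_succ] at h3
          simp only [Polynomial.coeff_map] at h3
          simp only [Pi.neg_apply, neg_mul, sum_neg_distrib]
          linarith)
        (by
          intro i z h0
          obtain ⟨h2, h3⟩ := z.2.1 i
          have h4 := z.2.2 i
          have h5 := Polynomial.leadingCoeff_ne_zero.2 h2
          rw [Polynomial.leadingCoeff, h4, Polynomial.coeff_map] at h5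
          exact h5 h0)
      exact ⟨R, h1, h2, h3⟩
  choose R hR0 hRd hR using key
  refine ⟨∏ e, R e, prod_ne_zero_iff.2 fun e _ => hR0 e, ?_, fun u x hux => ?_⟩
  · refine (MvPolynomial.totalDegree_finset_prod _ _).trans ?_
    refine (sum_le_sum fun e _ => hRd e).trans ?_
    simp
  · have hle : ∀ i, ((P i).map (MvPolynomial.eval u)).natDegree < d + 1 := fun i =>
      (Polynomial.natDegree_map_le.trans (hP i).1).trans_lt (Nat.lt_succ_self _)
    rw [map_prod]
    refine prod_eq_zero (mem_univ fun i => ⟨_, hle i⟩) ?_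
    exact hR _ ⟨(u, x), hux, fun i => rfl⟩

end Pool.Agent.U723.TD
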