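import Pool.Agent.U723.TD.IntP

/-!
# The final form: complexity tending to infinity
-/

set_option autoImplicit false

namespace Pool.Agent.U723.TD

open Finset Filter

/-- a diagonal sequence -/
lemma diag (P : ℕ → ℕ → Prop) (h0 : ∀ N, P 0 N) (h : ∀ w, ∀ᶠ N in atTop, P w N) :
    ∃ w : ℕ → ℕ, Tendsto w atTop atTop ∧ ∀ N, P (w N) N := by
  classical
  refine ⟨fun N => Nat.findGreatest (fun w => P w N) N, ?_, fun N => ?_⟩
  · rw [tendsto_atTop]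
    intro K
    filter_upwards [h K, eventually_ge_atTop K] with N h1 h2
    exact Nat.le_findGreatest h2 h1
  · exact Nat.findGreatest_spec (P := fun w => P w N) (Nat.zero_le N) (h0 N)

lemma big (w : ℕ) (δ : ℝ) (hδ : 0 < δ) : ∃ r₁ : ℕ, ∀ r : ℕ, r₁ ≤ r → (w : ℝ) ≤ δ * Real.sqrt (Real.log r) := by
  have h1 : Tendsto (fun r : ℕ => δ * Real.sqrt (Real.log r)) atTop atTop :=
    (Real.tendsto_sqrt_atTop.comp (Real.tendsto_log_atTop.comp tendsto_natCast_atTop_atTop)).const_mul_atTop hδ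
  exact (h1.eventually_ge_atTop (w : ℝ)).exists_forall_of_atTop

lemma Close.mono {γ : ℕ → ℝ} {w : ℕ} (hw : 1 ≤ w) {ε : ℝ} (hε : (w : ℝ) ≤ ε) {n : ℕ} {ι : Type} {b : ι → ℕ}
    {y : ι → ℝ} (h : Close γ w n b y) : Close γ ε n b y := by
  intro i
  have h1 := h i
  have hw0 : (0 : ℝ) < w := by exact_mod_cast hw
  rcases lt_or_ge (Real.log (γ n)) 0 with h2 | h2
  · have h3 := div_neg_of_pos_of_neg hw0 h2
    exact absurd (h1.trans_lt h3) (not_lt.2 (abs_nonneg _))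
  · exact h1.trans (div_le_div_of_nonneg_right hε h2)

section

variable {γ : ℕ → ℝ}

lemma few_w (h : Rare γ) (w s : ℕ) (hs : s < w) (η : ℝ) (hη : 0 < η) :
    ∃ r₀ : ℕ, ∀ r : ℕ, r₀ ≤ r → ∀ N : ℕ, 1 ≤ N → r * Real.log r ≤ Real.log N →
      ∀ b : Fin w → ℕ, Sep r (1 / w) b → ∀ c : Fin w → ℝ,
      ({n : ℕ | (1 ≤ n ∧ n ≤ N) ∧ ∃ (u : Fin s → ℝ) (y : Fin w → ℝ),
        Close γ w n b y ∧ ∀ i, AlgOver w w (Sum.elim c u) (y i)}.ncard : ℝ) ≤ η * N := by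
  have hw : 1 ≤ w := by omega
  have hw0 : (0 : ℝ) < w := by exact_mod_cast hw
  obtain ⟨δ, hδ, r₀, hr₀⟩ := few_all h w s w w w hs (1 / w) η (by positivity) hη
  obtain ⟨r₁, hr₁⟩ := big w δ hδ
  refine ⟨r₀ + r₁, fun r hr N hN hrN b hb c => le_trans ?_ (hr₀ r (by omega) N hN hrN b hb c)⟩
  refine Nat.cast_le.2 (Set.ncard_le_ncard ?_ (fin_of _ _))
  rintro n ⟨hn, u, y, hy, hA⟩
  exact ⟨hn, u, y, hy.mono hw (hr₁ r (by omega)), hA⟩

lemma gen_w (h : Rare γ) (w : ℕ) (hw : 1 ≤ w) {m : ℕ} (A : Finset (Fin m → ℕ)) (η : ℝ) (hη : 0 < η) :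
    ∃ r₀ : ℕ, ∀ r : ℕ, r₀ ≤ r → ∀ N : ℕ, 1 ≤ N → r * Real.log r ≤ Real.log N →
      ∀ b : A × Fin m → ℕ, Sep r (1 / w) b →
      ({n : ℕ | (1 ≤ n ∧ n ≤ N) ∧ ∃ y : A × Fin m → ℝ, Close γ w n b y ∧ Special A y}.ncard : ℝ) ≤ η * N := by
  have hw0 : (0 : ℝ) < w := by exact_mod_cast hw
  obtain ⟨δ, hδ, r₀, hr₀⟩ := gen_pos h m A (1 / w) η (by positivity) hη
  obtain ⟨r₁, hr₁⟩ := big w δ hδ
  refine ⟨r₀ + r₁, fun r hr N hN hrN b hb => le_trans ?_ (hr₀ r (by omega) N hN hrN b hb)⟩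
  refine Nat.cast_le.2 (Set.ncard_le_ncard ?_ (fin_of _ _))
  rintro n ⟨hn, y, hy, hA⟩
  exact ⟨hn, y, hy.mono hw (hr₁ r (by omega)), hA⟩

/-- the numbers `y i` are algebraic, with equations of degrees and heights at most `w`, over the field generated by
the `c j` and fewer than `k` real numbers `u l` -/
def Dependent {k J : ℕ} (w : ℕ) (c : Fin J → ℝ) (y : Fin k → ℝ) : Prop :=
  ∃ s < k, ∃ u : Fin s → ℝ, ∀ i, AlgOver w w (Sum.elim c u) (y i)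

/-- the degrees are at most `w` -/
def DegLe {s k : ℕ} (w : ℕ) (P : Fin k → Polynomial (MvPolynomial (Fin s) ℝ)) : Prop :=
  ∀ i, (P i).natDegree ≤ w ∧ ∀ j, ((P i).coeff j).totalDegree ≤ w

/-- the three assertions for the complexity `w` -/
def Good (γ : ℕ → ℝ) (w r N : ℕ) : Prop :=
  (∀ b : Fin w → ℕ, Sep r (1 / w) b → ∀ c : Fin w → ℝ,
    w * {n : ℕ | (1 ≤ n ∧ n ≤ N) ∧ ∃ y : Fin w → ℝ, Close γ w n b y ∧ Dependent w c y}.ncard ≤ N) ∧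
  (∀ b : Fin w → ℕ, Sep r (1 / w) b → ∀ s < w, ∀ P : Fin w → Polynomial (MvPolynomial (Fin s) ℝ), DegLe w P →
    w * {n : ℕ | (1 ≤ n ∧ n ≤ N) ∧ ∃ y : Fin w → ℝ, Close γ w n b y ∧ ∃ u : Fin s → ℝ, IsAlg P u y}.ncard ≤ N) ∧
  ∀ m ≤ w, ∀ A : Finset (Fin m → ℕ), (∀ a ∈ A, ∀ l, a l < w) → ∀ b : A × Fin m → ℕ, Sep r (1 / w) b →
    w * {n : ℕ | (1 ≤ n ∧ n ≤ N) ∧ ∃ y : A × Fin m → ℝ, Close γ w n b y ∧ Special A y}.ncard ≤ N

lemma good1 (h : Rare γ) (w : ℕ) (hw : 1 ≤ w) : ∃ r₀ : ℕ, ∀ r : ℕ, r₀ ≤ r → ∀ N : ℕ, 1 ≤ N →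
    r * Real.log r ≤ Real.log N → ∀ b : Fin w → ℕ, Sep r (1 / w) b → ∀ c : Fin w → ℝ,
    w * {n : ℕ | (1 ≤ n ∧ n ≤ N) ∧ ∃ y : Fin w → ℝ, Close γ w n b y ∧ Dependent w c y}.ncard ≤ N := by
  classical
  have hw0 : (0 : ℝ) < w := by exact_mod_cast hw
  have key := fun s : Fin w => few_w h w s s.2 (1 / (w : ℝ) ^ 2) (by positivity)
  choose R hR using key
  refine ⟨univ.sup R, fun r hr N hN hrN b hb c => ?_⟩
  let E : Fin w → Set ℕ := fun s => {n : ℕ | (1 ≤ n ∧ n ≤ N) ∧ ∃ (u : Fin s → ℝ) (y : Fin w → ℝ),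
    Close γ w n b y ∧ ∀ i, AlgOver w w (Sum.elim c u) (y i)}
  have hE : ∀ s, ((E s).ncard : ℝ) ≤ 1 / (w : ℝ) ^ 2 * N := fun s =>
    hR s r ((le_sup (mem_univ s)).trans hr) N hN hrN b hb c
  have hsub : {n : ℕ | (1 ≤ n ∧ n ≤ N) ∧ ∃ y : Fin w → ℝ, Close γ w n b y ∧ Dependent w c y} ⊆
      ↑(univ.biUnion fun s : Fin w => (fin_of N fun n => ∃ (u : Fin s → ℝ) (y : Fin w → ℝ),
    Close γ w n b y ∧ ∀ i, AlgOver w w (Sum.elim c u) (y i)).toFinset) := by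
    rintro n ⟨hn, y, hy, s, hs, u, hu⟩
    simp only [coe_biUnion, Set.mem_iUnion]
    refine ⟨⟨s, hs⟩, mem_coe.2 (mem_univ _), ?_⟩
    rw [Set.Finite.coe_toFinset]
    exact ⟨hn, u, y, hy, hu⟩
  have h1 := Set.ncard_le_ncard hsub (finite_toSet _)
  rw [Set.ncard_coe_finset] at h1
  have h2 : ((univ.biUnion fun s : Fin w => (fin_of N fun n => ∃ (u : Fin s → ℝ) (y : Fin w → ℝ),
    Close γ w n b y ∧ ∀ i, AlgOver w w (Sum.elim c u) (y i)).toFinset).card : ℝ) ≤ ∑ s, ((E s).ncard : ℝ) := by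
    refine (Nat.cast_le.2 card_biUnion_le).trans (le_of_eq ?_)
    rw [Nat.cast_sum]
    refine sum_congr rfl fun s _ => ?_
    rw [Set.ncard_eq_toFinset_card (E s) (fin_of N _)]
  have h3 := (Nat.cast_le.2 h1).trans (h2.trans (sum_le_sum fun s _ => hE s))
  rw [sum_const, card_univ, Fintype.card_fin, nsmul_eq_mul] at h3
  have h4 : (w : ℝ) * (w * (1 / (w : ℝ) ^ 2 * N)) = N := by field_simp
  have h5 := mul_le_mul_of_nonneg_left h3 hw0.le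
  rw [h4] at h5
  exact_mod_cast h5

lemma good0 (h : Rare γ) (w : ℕ) (hw : 1 ≤ w) : ∃ r₀ : ℕ, ∀ r : ℕ, r₀ ≤ r → ∀ N : ℕ, 1 ≤ N →
    r * Real.log r ≤ Real.log N → ∀ b : Fin w → ℕ, Sep r (1 / w) b → ∀ s < w,
    ∀ P : Fin w → Polynomial (MvPolynomial (Fin s) ℝ), DegLe w P →
    w * {n : ℕ | (1 ≤ n ∧ n ≤ N) ∧ ∃ y : Fin w → ℝ, Close γ w n b y ∧ ∃ u : Fin s → ℝ, IsAlg P u y}.ncard ≤ N := by
  classical
  have hw0 : (0 : ℝ) < w := by exact_mod_cast hw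
  have key := fun s : Fin w => few h w s w s.2 (1 / w) (1 / w) (by positivity) (by positivity)
  choose δ hδ R hR using key
  choose R' hR' using fun s => big w (δ s) (hδ s)
  refine ⟨univ.sup (fun s => R s + R' s), fun r hr N hN hrN b hb s hs P hP => ?_⟩
  have h0 : R ⟨s, hs⟩ + R' ⟨s, hs⟩ ≤ r := (le_sup (f := fun s => R s + R' s) (mem_univ _)).trans hr
  have h1 := hR ⟨s, hs⟩ r (by omega) N hN hrN b hb P hP
  have h2 : ({n : ℕ | (1 ≤ n ∧ n ≤ N) ∧ ∃ y : Fin w → ℝ, Close γ w n b y ∧ ∃ u : Fin s → ℝ, IsAlg P u y}.ncard : ℝ) ≤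
      1 / w * N := by
    refine le_trans (Nat.cast_le.2 (Set.ncard_le_ncard ?_ (fin_of _ _))) h1
    rintro n ⟨hn, y, hy, u, hu⟩
    exact ⟨hn, u, y, hy.mono hw (hR' ⟨s, hs⟩ r (by omega)), hu⟩
  have h4 : (w : ℝ) * (1 / (w : ℝ) * N) = N := by field_simp
  have h5 := mul_le_mul_of_nonneg_left h2 hw0.le
  rw [h4] at h5
  exact_mod_cast h5

lemma good2 (h : Rare γ) (w : ℕ) (hw : 1 ≤ w) : ∃ r₀ : ℕ, ∀ r : ℕ, r₀ ≤ r → ∀ N : ℕ, 1 ≤ N →
    r * Real.log r ≤ Real.log N → ∀ m ≤ w, ∀ A : Finset (Fin m → ℕ), (∀ a ∈ A, ∀ l, a l < w) →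
    ∀ b : A × Fin m → ℕ, Sep r (1 / w) b →
    w * {n : ℕ | (1 ≤ n ∧ n ≤ N) ∧ ∃ y : A × Fin m → ℝ, Close γ w n b y ∧ Special A y}.ncard ≤ N := by
  classical
  have hw0 : (0 : ℝ) < w := by exact_mod_cast hw
  have key := fun (m : ℕ) (A : Finset (Fin m → ℕ)) => gen_w h w hw A (1 / (w : ℝ)) (by positivity)
  choose R hR using key
  refine ⟨(range (w + 1)).sup fun m => (Fintype.piFinset fun _ : Fin m => range w).powerset.sup fun A => R m A,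
    fun r hr N hN hrN m hm A hA b hb => ?_⟩
  have h0 : R m A ≤ r := by
    refine le_trans ?_ hr
    refine le_trans ?_ (le_sup (f := fun m => (Fintype.piFinset fun _ : Fin m => range w).powerset.sup fun A => R m A)
      (mem_range.2 (by omega : m < w + 1)))
    refine le_sup (f := fun A => R m A) (mem_powerset.2 fun a ha => ?_)
    rw [Fintype.mem_piFinset]
    exact fun l => mem_range.2 (hA a ha l)
  have h1 := hR m A r h0 N hN hrN b hb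
  have h4 : (w : ℝ) * (1 / (w : ℝ) * N) = N := by field_simp
  have h5 := mul_le_mul_of_nonneg_left h1 hw0.le
  rw [h4] at h5
  exact_mod_cast h5

/-- **the final form** -/
theorem final (h : Rare γ) (r : ℕ → ℕ) (hr : Tendsto r atTop atTop)
    (hr' : ∀ᶠ N in atTop, r N * Real.log (r N) ≤ Real.log N) :
    ∃ w : ℕ → ℕ, Tendsto w atTop atTop ∧ ∀ N, Good γ (w N) (r N) N := by
  have hz : ∀ N, Good γ 0 (r N) N := fun N =>
    ⟨fun b _ c => by simp, fun b _ s hs => absurd hs (Nat.not_lt_zero _), fun m _ A _ b _ => by simp⟩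
  refine diag (fun w N => Good γ w (r N) N) hz fun w => ?_
  rcases Nat.eq_zero_or_pos w with rfl | hw
  · exact Eventually.of_forall hz
  obtain ⟨r₁, h1⟩ := good1 h w hw
  obtain ⟨r₀, h0⟩ := good0 h w hw
  obtain ⟨r₂, h2⟩ := good2 h w hw
  filter_upwards [hr', hr.eventually_ge_atTop (r₀ + r₁ + r₂), eventually_ge_atTop 1] with N h3 h4 h5
  exact ⟨h1 _ (by omega) N h5 h3, h0 _ (by omega) N h5 h3, h2 _ (by omega) N h5 h3⟩

/-- from the tuples with exact first term -/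
theorem rare_of (H : ∀ (k d : ℕ) (σ η : ℝ), 0 < σ → 0 < η →
    ∃ δ : ℝ, 0 < δ ∧ ∃ r₀ : ℕ, ∀ r : ℕ, r₀ ≤ r → ∀ N : ℕ, 1 ≤ N → r * Real.log r ≤ Real.log N →
      ∀ b : Fin k → ℕ, (∀ i, (r : ℝ) ^ σ ≤ b i ∧ b i ≤ r) →
      (∀ i j, i ≠ j → (r : ℝ) ^ σ ≤ |(b i : ℝ) - b j|) →
      ∀ P : MvPolynomial (Fin (k + 1)) ℝ, P ≠ 0 → P.totalDegree ≤ d →
      ({n : ℕ | (1 ≤ n ∧ n ≤ N) ∧ ∃ y : Fin k → ℝ, MvPolynomial.eval (Fin.cons (γ n) y : Fin (k + 1) → ℝ) P = 0 ∧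
        ∀ i, |γ (n + b i) - y i| ≤ δ * Real.sqrt (Real.log r) / Real.log (γ n)}.ncard : ℝ) ≤ η * N) : Rare γ := by
  classical
  intro ι _ d σ η hσ hη
  obtain ⟨δ, hδ, r₀, h⟩ := H (Fintype.card ι) d σ η hσ hη
  refine ⟨δ, hδ, r₀, fun r hr N hN hrN b hb P hP hPd => ?_⟩
  let e : ι ≃ Fin (Fintype.card ι) := Fintype.equivFin ι
  let f : ι → Fin (Fintype.card ι + 1) := fun i => (e i).succ
  have hf : Function.Injective f := fun i j hij => e.injective (Fin.succ_injective _ hij)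
  refine le_trans ?_ (h r hr N hN hrN (fun i => b (e.symm i)) (fun i => hb.1 _)
    (fun i j hij => hb.2 _ _ fun hh => hij (e.symm.injective hh)) (MvPolynomial.rename f P)
    (fun h0 => hP (MvPolynomial.rename_injective f hf (by rw [h0, map_zero])))
    ((MvPolynomial.totalDegree_rename_le _ _).trans hPd))
  refine Nat.cast_le.2 (Set.ncard_le_ncard ?_ (fin_of _ _))
  rintro n ⟨hn, y, hy, hP0⟩
  refine ⟨hn, fun i => y (e.symm i), ?_, fun i => hy (e.symm i)⟩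
  rw [MvPolynomial.eval_rename, ← hP0]
  congr 1
  congr 1
  funext i
  simp [f]

end

end Pool.Agent.U723.TD
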