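import Pool.Agent.U723.TD.Elim

/-!
# From polynomial relations to parameters and to general position

`Rare γ` says that nonzero real polynomials of bounded degree vanish at few of the tuples of separated terms of the
sequence `γ`. We deduce that few of the tuples are algebraic over fewer parameters, and that few of the tuples are in
special position.
-/

set_option autoImplicit false

namespace Pool.Agent.U723.TD

open Finset

/-- the shifts are in `[r ^ σ, r]` and at a distance at least `r ^ σ` from each other -/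
def Sep {ι : Type} (r : ℕ) (σ : ℝ) (b : ι → ℕ) : Prop :=
  (∀ i, (r : ℝ) ^ σ ≤ b i ∧ b i ≤ r) ∧ ∀ i j, i ≠ j → (r : ℝ) ^ σ ≤ |(b i : ℝ) - b j|

/-- `y` is close to the tuple of the terms -/
def Close (γ : ℕ → ℝ) (ε : ℝ) (n : ℕ) {ι : Type} (b : ι → ℕ) (y : ι → ℝ) : Prop :=
  ∀ i, |γ (n + b i) - y i| ≤ ε / Real.log (γ n)

/-- polynomial relations are rare -/
def Rare (γ : ℕ → ℝ) : Prop :=
  ∀ (ι : Type) [Fintype ι] (d : ℕ) (σ η : ℝ), 0 < σ → 0 < η → ∃ δ : ℝ, 0 < δ ∧ ∃ r₀ : ℕ, ∀ r : ℕ, r₀ ≤ r →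
    ∀ N : ℕ, 1 ≤ N → r * Real.log r ≤ Real.log N → ∀ b : ι → ℕ, Sep r σ b →
    ∀ P : MvPolynomial ι ℝ, P ≠ 0 → P.totalDegree ≤ d →
    ({n : ℕ | (1 ≤ n ∧ n ≤ N) ∧ ∃ y : ι → ℝ, Close γ (δ * Real.sqrt (Real.log r)) n b y ∧
      MvPolynomial.eval y P = 0}.ncard : ℝ) ≤ η * N

section

variable {γ : ℕ → ℝ}

lemma fin_of (N : ℕ) (Q : ℕ → Prop) : {n : ℕ | (1 ≤ n ∧ n ≤ N) ∧ Q n}.Finite :=
  (Set.finite_Icc 1 N).subset fun _ hn => hn.1

/-- **few parameters**, for one system -/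
theorem few (h : Rare γ) (k s d : ℕ) (hs : s < k) (σ η : ℝ) (hσ : 0 < σ) (hη : 0 < η) :
    ∃ δ : ℝ, 0 < δ ∧ ∃ r₀ : ℕ, ∀ r : ℕ, r₀ ≤ r → ∀ N : ℕ, 1 ≤ N → r * Real.log r ≤ Real.log N →
      ∀ b : Fin k → ℕ, Sep r σ b → ∀ P : Fin k → Polynomial (MvPolynomial (Fin s) ℝ),
      (∀ i, (P i).natDegree ≤ d ∧ ∀ j, ((P i).coeff j).totalDegree ≤ d) →
      ({n : ℕ | (1 ≤ n ∧ n ≤ N) ∧ ∃ (u : Fin s → ℝ) (y : Fin k → ℝ),
        Close γ (δ * Real.sqrt (Real.log r)) n b y ∧ IsAlg P u y}.ncard : ℝ) ≤ η * N := by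
  obtain ⟨Δ, hΔ⟩ := elim s k d hs
  obtain ⟨δ, hδ, r₀, hr₀⟩ := h (Fin k) Δ σ η hσ hη
  refine ⟨δ, hδ, r₀, fun r hr N hN hrN b hb P hP => ?_⟩
  obtain ⟨R, h1, h2, h3⟩ := hΔ P hP
  refine le_trans ?_ (hr₀ r hr N hN hrN b hb R h1 h2)
  refine Nat.cast_le.2 (Set.ncard_le_ncard ?_ (fin_of _ _))
  rintro n ⟨hn, u, y, hy, hP⟩
  exact ⟨hn, y, hy, h3 u y hP⟩

/-- the determinant of the values of the monomials with exponents in `A` at points with unknown coordinates -/
noncomputable def vdet {m : ℕ} (A : Finset (Fin m → ℕ)) : MvPolynomial (A × Fin m) ℝ :=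
  Matrix.det (Matrix.of fun a a' : A => ∏ l, (MvPolynomial.X (a, l) : MvPolynomial (A × Fin m) ℝ) ^ a'.1 l)

lemma eval_vdet {m : ℕ} (A : Finset (Fin m → ℕ)) (y : A × Fin m → ℝ) :
    MvPolynomial.eval y (vdet A) = Matrix.det (Matrix.of fun a a' : A => ∏ l, y (a, l) ^ a'.1 l) := by
  rw [vdet, RingHom.map_det]
  congr 1
  ext a a'
  simp

lemma digits_inj {m D : ℕ} : ∀ {a a' : Fin m → ℕ}, (∀ l, a l < D) → (∀ l, a' l < D) →
    ∑ l, a l * D ^ (l : ℕ) = ∑ l, a' l * D ^ (l : ℕ) → a = a' := by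
  induction m with
  | zero => intro a a' _ _ _; exact Subsingleton.elim _ _
  | succ m ih =>
    intro a a' ha ha' h
    rw [Fin.sum_univ_succ, Fin.sum_univ_succ] at h
    simp only [Fin.val_zero, pow_zero, mul_one, Fin.val_succ, pow_succ] at h
    have e1 : ∀ c : Fin (m + 1) → ℕ, ∑ l : Fin m, c l.succ * (D ^ (l : ℕ) * D) = D * ∑ l : Fin m, c l.succ * D ^ (l : ℕ) := by
      intro c
      rw [mul_sum]
      exact sum_congr rfl fun l _ => by ring
    rw [e1, e1] at h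
    have h0 : a 0 = a' 0 := by
      have := congrArg (· % D) h
      simpa [Nat.add_mul_mod_self_left, Nat.mod_eq_of_lt (ha 0), Nat.mod_eq_of_lt (ha' 0)] using this
    rw [h0, Nat.add_left_cancel_iff] at h
    have hD : 0 < D := (Nat.zero_le _).trans_lt (ha 0)
    have h2 := ih (fun l => ha l.succ) (fun l => ha' l.succ) (Nat.eq_of_mul_eq_mul_left hD h)
    funext l
    refine Fin.cases h0 (fun l => congrFun h2 l) l

lemma vdet_ne_zero {m : ℕ} (A : Finset (Fin m → ℕ)) : vdet A ≠ 0 := by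
  classical
  obtain ⟨D, hD⟩ : ∃ D : ℕ, ∀ a ∈ A, ∀ l, a l < D := by
    refine ⟨A.sup (fun a => univ.sup a) + 1, fun a ha l => Nat.lt_succ_of_le ?_⟩
    exact (le_sup (f := a) (mem_univ l)).trans (le_sup (f := fun a : Fin m → ℕ => univ.sup a) ha)
  intro h0
  let e : A ≃ Fin (Fintype.card A) := Fintype.equivFin A
  let y : A × Fin m → ℝ := fun c => ((2 : ℝ) ^ (D ^ (c.2 : ℕ))) ^ (e c.1 : ℕ)
  have h1 := eval_vdet A y
  rw [h0, map_zero] at h1
  have h2 : (Matrix.of fun a a' : A => ∏ l, y (a, l) ^ a'.1 l) =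
      ((Matrix.vandermonde fun j : Fin (Fintype.card A) => (2 : ℝ) ^ (∑ l, (e.symm j).1 l * D ^ (l : ℕ))).transpose).submatrix
        e e := by
    ext a a'
    simp only [Matrix.of_apply, Matrix.submatrix_apply, Matrix.transpose_apply, Matrix.vandermonde_apply,
      Equiv.symm_apply_apply, y]
    rw [← pow_mul, sum_mul, ← prod_pow_eq_pow_sum]
    refine prod_congr rfl fun l _ => ?_
    rw [← pow_mul, ← pow_mul]
    congr 1
    ring
  rw [h2, Matrix.det_submatrix_equiv_self, Matrix.det_transpose] at h1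
  refine Matrix.det_vandermonde_ne_zero_iff.2 ?_ h1.symm
  intro i j hij
  have h3 := pow_right_injective₀ (by norm_num : (0 : ℝ) < 2) (by norm_num) hij
  have h4 := digits_inj (hD _ (e.symm i).2) (hD _ (e.symm j).2) h3
  exact e.symm.injective (Subtype.ext h4)

/-- the points `y a`, `a ∈ A`, are on a hypersurface the equation of which has its exponents in `A` -/
def Special {m : ℕ} (A : Finset (Fin m → ℕ)) (y : A × Fin m → ℝ) : Prop :=
  ∃ G : MvPolynomial (Fin m) ℝ, G ≠ 0 ∧ (∀ e ∈ G.support, (fun l => e l) ∈ A) ∧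
    ∀ a : A, MvPolynomial.eval (fun l => y (a, l)) G = 0

lemma Special.det {m : ℕ} {A : Finset (Fin m → ℕ)} {y : A × Fin m → ℝ} (h : Special A y) :
    MvPolynomial.eval y (vdet A) = 0 := by
  classical
  obtain ⟨G, hG, hA, h0⟩ := h
  rw [eval_vdet, ← Matrix.exists_mulVec_eq_zero_iff]
  let ex : (Fin m → ℕ) → (Fin m →₀ ℕ) := fun a => Finsupp.equivFunOnFinite.symm a
  refine ⟨fun a' => G.coeff (ex a'.1), ?_, ?_⟩
  · intro hz
    refine hG (MvPolynomial.ext _ _ fun e => ?_)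
    by_contra hne
    have he : e ∈ G.support := by
      rw [MvPolynomial.mem_support_iff]
      simpa using hne
    have h1 := congrFun hz ⟨_, hA e he⟩
    have h2 : ex (fun l => e l) = e := by
      ext l
      rfl
    simp only [h2, Pi.zero_apply] at h1
    exact (MvPolynomial.mem_support_iff.1 he) h1
  · funext a
    rw [Pi.zero_apply, ← h0 a, MvPolynomial.eval_eq']
    simp only [Matrix.mulVec, dotProduct, Matrix.of_apply]
    symm
    have hinj : ∀ x ∈ G.support, ∀ x' ∈ G.support, (fun l => x l) = (fun l => x' l) → x = x' := by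
      intro x _ x' _ hx
      ext l
      exact congrFun hx l
    have hsub : ∑ e ∈ G.support, G.coeff e * ∏ l, y (a, l) ^ e l =
        ∑ c ∈ A, G.coeff (ex c) * ∏ l, y (a, l) ^ c l := by
      have himg : G.support.image (fun e => (fun l => e l : Fin m → ℕ)) ⊆ A := by
        intro c hc
        obtain ⟨e, he, rfl⟩ := mem_image.1 hc
        exact hA e he
      rw [← sum_subset himg, sum_image (fun x hx x' hx' hh => hinj x hx x' hx' hh)]
      · refine sum_congr rfl fun e _ => ?_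
        have h2 : ex (fun l => e l) = e := by
          ext l
          rfl
        rw [h2]
      · intro c _ hc
        have : G.coeff (ex c) = 0 := by
          by_contra hne
          refine hc (mem_image.2 ⟨ex c, MvPolynomial.mem_support_iff.2 hne, ?_⟩)
          rfl
        rw [this, zero_mul]
    rw [hsub, ← sum_coe_sort]
    exact sum_congr rfl fun c _ => mul_comm _ _

/-- **general position** -/
theorem gen_pos (h : Rare γ) (m : ℕ) (A : Finset (Fin m → ℕ)) (σ η : ℝ) (hσ : 0 < σ) (hη : 0 < η) :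
    ∃ δ : ℝ, 0 < δ ∧ ∃ r₀ : ℕ, ∀ r : ℕ, r₀ ≤ r → ∀ N : ℕ, 1 ≤ N → r * Real.log r ≤ Real.log N →
      ∀ b : A × Fin m → ℕ, Sep r σ b →
      ({n : ℕ | (1 ≤ n ∧ n ≤ N) ∧ ∃ y : A × Fin m → ℝ,
        Close γ (δ * Real.sqrt (Real.log r)) n b y ∧ Special A y}.ncard : ℝ) ≤ η * N := by
  obtain ⟨δ, hδ, r₀, hr₀⟩ := h (A × Fin m) (vdet A).totalDegree σ η hσ hη
  refine ⟨δ, hδ, r₀, fun r hr N hN hrN b hb => ?_⟩
  refine le_trans ?_ (hr₀ r hr N hN hrN b hb (vdet A) (vdet_ne_zero A) le_rfl)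
  refine Nat.cast_le.2 (Set.ncard_le_ncard ?_ (fin_of _ _))
  rintro n ⟨hn, y, hy, hS⟩
  exact ⟨hn, y, hy, hS.det⟩

end

end Pool.Agent.U723.TD
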