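import Pool.Agent.U723.TD.Gen

/-!
# All the systems of bounded complexity at once
-/

set_option autoImplicit false

namespace Pool.Agent.U723.TD

open Finset

/-- the degrees are at most `d`, and the coefficients are at most `H` in absolute value -/
def Simple {τ : Type} (d H : ℕ) (P : Polynomial (MvPolynomial τ ℤ)) : Prop :=
  P.natDegree ≤ d ∧ ∀ j, (P.coeff j).totalDegree ≤ d ∧ ∀ m, |(P.coeff j).coeff m| ≤ H

/-- `y` is a root of the polynomial obtained from `P` by inserting `v`, which is not zero -/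
def Root {τ : Type} (P : Polynomial (MvPolynomial τ ℤ)) (v : τ → ℝ) (y : ℝ) : Prop :=
  P.map (MvPolynomial.eval₂Hom (Int.castRingHom ℝ) v) ≠ 0 ∧
    (P.map (MvPolynomial.eval₂Hom (Int.castRingHom ℝ) v)).eval y = 0

/-- `y` is algebraic over the field generated by the `v i`, with a nonzero equation of bounded degree and height -/
def AlgOver {τ : Type} (d H : ℕ) (v : τ → ℝ) (y : ℝ) : Prop :=
  ∃ P : Polynomial (MvPolynomial τ ℤ), Simple d H P ∧ Root P v y

lemma simple_finite {τ : Type} [Fintype τ] (k d H : ℕ) :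
    {P : Fin k → Polynomial (MvPolynomial τ ℤ) | ∀ i, Simple d H (P i)}.Finite := by
  classical
  let f : (Fin k → Polynomial (MvPolynomial τ ℤ)) → (Fin k × Fin (d + 1) × (τ → Fin (d + 1)) → ℤ) := fun P c =>
    ((P c.1).coeff c.2.1).coeff (Finsupp.equivFunOnFinite.symm fun l => (c.2.2 l : ℕ))
  refine Set.Finite.of_finite_image (f := f) ((Set.Finite.pi' (t := fun _ => Set.Icc (-(H : ℤ)) H)
    fun _ => Set.finite_Icc _ _).subset ?_) ?_
  · rintro _ ⟨P, hP, rfl⟩ c
    exact abs_le.1 (((hP c.1).2 c.2.1).2 _)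
  · intro P hP Q hQ h
    funext i
    refine Polynomial.ext fun j => ?_
    by_cases hj : j ≤ d
    · refine MvPolynomial.ext _ _ fun e => ?_
      by_cases he : ∀ l, e l ≤ d
      · have := congrFun h (i, ⟨j, by omega⟩, fun l => ⟨e l, by have := he l; omega⟩)
        have e1 : (Finsupp.equivFunOnFinite.symm fun l => e l : τ →₀ ℕ) = e := by
          ext l
          rfl
        simpa only [f, e1] using this
      · have hz : ∀ R : Polynomial (MvPolynomial τ ℤ), Simple d H R → (R.coeff j).coeff e = 0 := by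
          intro R hR
          by_contra hne
          refine he fun l => ?_
          refine le_trans ?_ ((MvPolynomial.le_totalDegree (MvPolynomial.mem_support_iff.2 hne)).trans (hR.2 j).1)
          rw [Finsupp.sum_fintype _ _ (by simp)]
          exact single_le_sum (f := fun i => e i) (fun i _ => Nat.zero_le _) (mem_univ l)
        rw [hz _ (hP i), hz _ (hQ i)]
    · rw [Polynomial.coeff_eq_zero_of_natDegree_lt (lt_of_le_of_lt (hP i).1 (not_le.1 hj)),
        Polynomial.coeff_eq_zero_of_natDegree_lt (lt_of_le_of_lt (hQ i).1 (not_le.1 hj))]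

/-- insert the numbers `c` -/
noncomputable def spec {J s : ℕ} (c : Fin J → ℝ) : MvPolynomial (Fin J ⊕ Fin s) ℤ →+* MvPolynomial (Fin s) ℝ :=
  MvPolynomial.eval₂Hom (Int.castRingHom _) (Sum.elim (fun i => MvPolynomial.C (c i)) MvPolynomial.X)

lemma spec_degree {J s d : ℕ} (c : Fin J → ℝ) (f : MvPolynomial (Fin J ⊕ Fin s) ℤ) (hf : f.totalDegree ≤ d) :
    (spec c f).totalDegree ≤ d := by
  classical
  rw [spec, MvPolynomial.coe_eval₂Hom, MvPolynomial.eval₂_eq']
  refine (MvPolynomial.totalDegree_finsetSum _ _).trans (Finset.sup_le fun e he => ?_)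
  refine (MvPolynomial.totalDegree_mul _ _).trans ?_
  have h1 : ((Int.castRingHom (MvPolynomial (Fin s) ℝ)) (f.coeff e)).totalDegree = 0 := by
    have : (Int.castRingHom (MvPolynomial (Fin s) ℝ)) (f.coeff e) = MvPolynomial.C ((f.coeff e : ℤ) : ℝ) := by
      simp
    rw [this, MvPolynomial.totalDegree_C]
  rw [h1, zero_add]
  refine (MvPolynomial.totalDegree_finsetProd _ _).trans ?_
  refine le_trans (sum_le_sum (g := fun i => e i) fun i _ => ?_) ?_
  · refine (MvPolynomial.totalDegree_pow _ _).trans ?_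
    rcases i with i | i
    · simp
    · simp [MvPolynomial.totalDegree_X]
  · refine le_trans ?_ ((MvPolynomial.le_totalDegree he).trans hf)
    rw [Finsupp.sum_fintype _ _ (by simp)]

lemma eval_spec {J s : ℕ} (c : Fin J → ℝ) (u : Fin s → ℝ) :
    (MvPolynomial.eval u).comp (spec c) = MvPolynomial.eval₂Hom (Int.castRingHom ℝ) (Sum.elim c u) := by
  refine MvPolynomial.ringHom_ext (fun n => ?_) fun i => ?_
  · simp [spec]
  · rcases i with i | i <;> simp [spec]

/-- **few parameters**, for all the systems of bounded complexity over a field generated by given numbers -/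
theorem few_all {γ : ℕ → ℝ} (h : Rare γ) (k s J d H : ℕ) (hs : s < k) (σ η : ℝ) (hσ : 0 < σ) (hη : 0 < η) :
    ∃ δ : ℝ, 0 < δ ∧ ∃ r₀ : ℕ, ∀ r : ℕ, r₀ ≤ r → ∀ N : ℕ, 1 ≤ N → r * Real.log r ≤ Real.log N →
      ∀ b : Fin k → ℕ, Sep r σ b → ∀ c : Fin J → ℝ,
      ({n : ℕ | (1 ≤ n ∧ n ≤ N) ∧ ∃ (u : Fin s → ℝ) (y : Fin k → ℝ),
        Close γ (δ * Real.sqrt (Real.log r)) n b y ∧ ∀ i, AlgOver d H (Sum.elim c u) (y i)}.ncard : ℝ) ≤ η * N := by
  classical
  obtain ⟨F, hF⟩ : ∃ F, F = (simple_finite (τ := Fin J ⊕ Fin s) k d H).toFinset := ⟨_, rfl⟩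
  obtain ⟨η', hη'⟩ : ∃ η' : ℝ, η' = η / (F.card + 1) := ⟨_, rfl⟩
  have hη0 : 0 < η' := by rw [hη']; positivity
  obtain ⟨δ, hδ, r₀, hr₀⟩ := few h k s d hs σ η' hσ hη0
  refine ⟨δ, hδ, r₀, fun r hr N hN hrN b hb c => ?_⟩
  let E : (Fin k → Polynomial (MvPolynomial (Fin J ⊕ Fin s) ℤ)) → Set ℕ := fun P =>
    {n : ℕ | (1 ≤ n ∧ n ≤ N) ∧ ∃ (u : Fin s → ℝ) (y : Fin k → ℝ),
      Close γ (δ * Real.sqrt (Real.log r)) n b y ∧ IsAlg (fun i => (P i).map (spec c)) u y}
  have hE : ∀ P ∈ F, ((E P).ncard : ℝ) ≤ η' * N := by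
    intro P hP
    rw [hF, Set.Finite.mem_toFinset] at hP
    refine hr₀ r hr N hN hrN b hb _ fun i => ⟨Polynomial.natDegree_map_le.trans (hP i).1, fun j => ?_⟩
    rw [Polynomial.coeff_map]
    exact spec_degree c _ ((hP i).2 j).1
  have hsub : {n : ℕ | (1 ≤ n ∧ n ≤ N) ∧ ∃ (u : Fin s → ℝ) (y : Fin k → ℝ),
      Close γ (δ * Real.sqrt (Real.log r)) n b y ∧ ∀ i, AlgOver d H (Sum.elim c u) (y i)} ⊆
      ↑(F.biUnion fun P => (fin_of N fun n => ∃ (u : Fin s → ℝ) (y : Fin k → ℝ),
      Close γ (δ * Real.sqrt (Real.log r)) n b y ∧ IsAlg (fun i => (P i).map (spec c)) u y).toFinset) := by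
    rintro n ⟨hn, u, y, hy, hA⟩
    choose P hP hR using hA
    simp only [coe_biUnion, Set.mem_iUnion]
    refine ⟨P, ?_, ?_⟩
    · rw [hF]
      simpa using hP
    · rw [Set.Finite.coe_toFinset]
      refine ⟨hn, u, y, hy, fun i => ?_⟩
      have e1 : ((P i).map (spec c)).map (MvPolynomial.eval u) =
          (P i).map (MvPolynomial.eval₂Hom (Int.castRingHom ℝ) (Sum.elim c u)) := by
        rw [Polynomial.map_map, eval_spec]
      show ((P i).map (spec c)).map (MvPolynomial.eval u) ≠ 0 ∧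
        (((P i).map (spec c)).map (MvPolynomial.eval u)).eval (y i) = 0
      rw [e1]
      exact hR i
  have h1 := Set.ncard_le_ncard hsub (finite_toSet _)
  rw [Set.ncard_coe_finset] at h1
  have h2 : ((F.biUnion fun P => (fin_of N fun n => ∃ (u : Fin s → ℝ) (y : Fin k → ℝ),
      Close γ (δ * Real.sqrt (Real.log r)) n b y ∧ IsAlg (fun i => (P i).map (spec c)) u y).toFinset).card : ℝ) ≤
      ∑ P ∈ F, ((E P).ncard : ℝ) := by
    refine (Nat.cast_le.2 card_biUnion_le).trans (le_of_eq ?_)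
    rw [Nat.cast_sum]
    refine sum_congr rfl fun P _ => ?_
    rw [Set.ncard_eq_toFinset_card (E P) (fin_of N _)]
  refine (Nat.cast_le.2 h1).trans (h2.trans ((sum_le_sum hE).trans ?_))
  rw [sum_const, nsmul_eq_mul, hη']
  have h3 : (0 : ℝ) < F.card + 1 := by positivity
  have h4 : (F.card : ℝ) * (η / (F.card + 1) * N) = η * N * (F.card / (F.card + 1)) := by field_simp
  rw [h4]
  have h5 : (F.card : ℝ) / (F.card + 1) ≤ 1 := by
    rw [div_le_one h3]
    linarith
  exact mul_le_of_le_one_right (by positivity) h5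

end Pool.Agent.U723.TD
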